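import Pool.Agent.Lib_helper17.Rogers.Upper
import Pool.Agent.Lib_helper17.Rogers.Lower

open Metric Set
open Pool.Agent.Lib_helper17.Rogers

namespace Pool.Agent.Results.MP_5cea3d_gt.LatticeGapDimFive

/-- For the Euclidean unit ball of `ℝ⁵` the simultaneous packing and covering constant `γ₅` is
strictly smaller than its lattice version `γ*₅`:
`γ₅ ≤ 9 / (2√10) = 1.42302...` and `γ*₅ ≥ √(152/75) = 1.42361...`. -/
theorem result :
    packCover (closedBall (0 : EuclideanSpace ℝ (Fin 5)) 1) <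
        packCoverLattice (closedBall (0 : EuclideanSpace ℝ (Fin 5)) 1) ∧
      packCover (closedBall (0 : EuclideanSpace ℝ (Fin 5)) 1) ≤ 9 / (2 * √10) ∧
      √(152 / 75) ≤ packCoverLattice (closedBall (0 : EuclideanSpace ℝ (Fin 5)) 1) := by
  have h1 := packCover_five_le
  have h2 := packCoverLattice_five_ge
  refine ⟨?_, h1, h2⟩
  refine lt_of_le_of_lt h1 (lt_of_lt_of_le ?_ h2)
  have h10 : (√10 : ℝ) ^ 2 = 10 := Real.sq_sqrt (by norm_num)
  apply Real.lt_sqrt_of_sq_lt
  rw [div_pow, mul_pow, h10]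
  norm_num

end Pool.Agent.Results.MP_5cea3d_gt.LatticeGapDimFive
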